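import Pool.Agent.H.MP_a4cf75_mp.B

set_option autoImplicit false

namespace Pool.Agent.Results.MP_a4cf75_mp.Q2No
open Pool.Agent.H.MP_a4cf75_mp MeasureTheory

theorem result [MeasurableSpace (Matrix.unitaryGroup (Fin 2 × Fin 2) ℂ)]
    [BorelSpace (Matrix.unitaryGroup (Fin 2 × Fin 2) ℂ)] (μ : Measure (Matrix.unitaryGroup (Fin 2 × Fin 2) ℂ))
    [IsProbabilityMeasure μ] [μ.IsMulLeftInvariant] : N μ 2 4 < N μ 2 5 :=
  main μ

end Pool.Agent.Results.MP_a4cf75_mp.Q2No
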